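import Mathlib

set_option autoImplicit false
open Finset

namespace Pool.Agent.Results.MP_b69f9e_co.Levels

/-- The substring `s[i..j]` occurs at position `p` of `s[1..n]`. -/
def Occ {α : Type} (n : ℕ) (s : ℕ → α) (i j p : ℕ) : Prop :=
  p + (j - i) ≤ n ∧ ∀ m ≤ j - i, s (p + m) = s (i + m)

/-- `s[i..j]` is right closed with next occurrence at `q`. -/
def Nxt {α : Type} (n : ℕ) (s : ℕ → α) (i j q : ℕ) : Prop :=
  i < q ∧ Occ n s i j q ∧ (∀ p, i < p → p < q → ¬Occ n s i j p) ∧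
    (q + (j - i) = n ∨ s (j + 1) ≠ s (q + (j - i) + 1))

/-- The right closed repeats of `s[1..n]` starting in `P`, as position pairs. -/
def RCR {α : Type} (n : ℕ) (s : ℕ → α) (P : Finset ℕ) : Set (ℕ × ℕ) :=
  {x | x.1 ∈ P ∧ 1 ≤ x.1 ∧ x.1 ≤ x.2 ∧ x.2 ≤ n ∧ ∃ q, Nxt n s x.1 x.2 q}

variable {r : ℕ}

def dg (r x k : ℕ) : ℕ := x / r ^ k % r
def nx (r t k v : ℕ) : ℕ := r ^ k * (v + r * (t / r ^ k / r + 1))
def st (r D x : ℕ) : ℕ × (ℕ → Prop) := (x % D, fun k => dg r (x / D) k ≠ 0 ∧ dg r (x % D) k = dg r (x / D) k)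

theorem cnt {c m : ℕ} (hc : 0 < c) (A : Finset ℕ) (hA : ∀ u ∈ A, u < r) :
    #{x ∈ range (c * r * m) | x / c % r ∈ A} = c * (#A * m) := by
  rw [← card_range c, ← card_range m, ← card_product, ← card_product, card_range, card_range]
  refine card_nbij' (fun x => (x % c, x / c % r, x / c / r)) (fun y => y.1 + c * (y.2.1 + r * y.2.2)) ?_ ?_ ?_ ?_
  · intro x hx
    simp only [coe_filter, mem_range, Set.mem_setOf_eq] at hx
    simp only [coe_product, Set.mem_prod, mem_coe, mem_range]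
    refine ⟨Nat.mod_lt _ hc, hx.2, ?_⟩
    rw [Nat.div_div_eq_div_mul]; exact Nat.div_lt_of_lt_mul hx.1
  · rintro ⟨a, u, b⟩ h
    simp only [coe_product, Set.mem_prod, mem_coe, mem_range] at h
    have := hA u h.2.1
    simp only [coe_filter, mem_range, Set.mem_setOf_eq, Nat.add_mul_div_left _ _ hc, Nat.div_eq_of_lt h.1,
      zero_add, Nat.add_mul_mod_self_left, Nat.mod_eq_of_lt this]
    refine ⟨?_, h.2.1⟩
    calc _ < c * (u + r * b + 1) := by linarith [h.1]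
      _ ≤ c * (r * (b + 1)) := Nat.mul_le_mul_left _ (by linarith)
      _ ≤ _ := by rw [mul_assoc]; gcongr; exact h.2.2
  · intro x _; simp [Nat.mod_add_div]
  · rintro ⟨a, u, b⟩ h
    simp only [coe_product, Set.mem_prod, mem_coe, mem_range] at h
    have := hA u h.2.1
    simp [Nat.add_mul_div_left _ _ hc, Nat.div_eq_of_lt h.1, Nat.mod_eq_of_lt this, Nat.mod_eq_of_lt h.1,
      Nat.add_mul_div_left _ _ (Nat.zero_lt_of_lt this), Nat.div_eq_of_lt this]

theorem cnt' (hr : 0 < r) {K k : ℕ} (hk : k ≤ K) (A : Finset ℕ) (hA : ∀ u ∈ A, u < r) :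
    #{x ∈ range (r ^ (K + 1)) | dg r x k ∈ A} = #A * r ^ K := by
  obtain ⟨m, rfl⟩ := Nat.exists_eq_add_of_le hk
  rw [show r ^ (k + m + 1) = r ^ k * r * r ^ m by ring]
  exact (cnt (by positivity) A hA).trans (by ring)

theorem n1 {t k v : ℕ} (h : v < r) : dg r (nx r t k v) k = v := by
  rw [dg, nx, Nat.mul_div_cancel_left _ (pow_pos (by omega) _), Nat.add_mul_mod_self_left, Nat.mod_eq_of_lt h]

theorem n2 {t k v : ℕ} (h : v < r) : t + r ^ k * v < nx r t k v ∧ nx r t k v < t + 2 * r ^ (k + 1) := by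
  have p : 0 < r ^ k := pow_pos (by omega) _
  have a := Nat.lt_mul_div_succ t (Nat.mul_pos p (by omega : 0 < r))
  have b := Nat.mul_div_le t (r ^ k * r)
  have c := Nat.mul_lt_mul_of_pos_left h p
  rw [nx, Nat.div_div_eq_div_mul, pow_succ]
  constructor <;> linarith

theorem n3 {t k v y : ℕ} (h : v < dg r t k) (h1 : t ≤ y) (h2 : y < nx r t k v) : dg r y k ≠ v := fun e => by
  have a := Nat.div_lt_of_lt_mul h2
  have b : t / r ^ k ≤ y / r ^ k := Nat.div_le_div_right h1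
  simp only [dg] at e h
  generalize t / r ^ k = x at *
  generalize y / r ^ k = z at *
  have := Nat.mod_add_div x r
  have := Nat.mod_add_div z r
  have c : r * (x / r) < r * (z / r) := by omega
  have := Nat.mul_le_mul_left r (show x / r + 1 ≤ z / r from Nat.lt_of_mul_lt_mul_left c)
  omega

theorem d1 {b k v : ℕ} (h : v < r) (h0 : dg r b k = 0) (m : ℕ) :
    dg r (b + r ^ k * v) m = if m = k then v else dg r b m := by
  have p : ∀ k, 0 < r ^ k := fun k => pow_pos (by omega) _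
  have q := Nat.mod_add_div (b / r ^ k) r
  simp only [dg] at h0 ⊢
  rcases lt_trichotomy m k with c | rfl | c
  · obtain ⟨e, rfl⟩ := Nat.exists_eq_add_of_lt c
    rw [if_neg c.ne, show r ^ (m + e + 1) * v = r ^ m * (r * (r ^ e * v)) by ring, Nat.add_mul_div_left _ _ (p m),
      Nat.add_mul_mod_self_left]
  · rw [if_pos rfl, Nat.add_mul_div_left _ _ (p m), Nat.add_mod, h0, zero_add, Nat.mod_mod, Nat.mod_eq_of_lt h]
  · obtain ⟨e, rfl⟩ := Nat.exists_eq_add_of_lt c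
    rw [if_neg c.ne', show r ^ (k + e + 1) = r ^ k * r * r ^ e by ring]
    simp only [← Nat.div_div_eq_div_mul]
    rw [Nat.add_mul_div_left _ _ (p k), ← q, h0, zero_add, add_comm, Nat.add_mul_div_left _ _ (by omega),
      Nat.div_eq_of_lt h, zero_add, Nat.mul_div_cancel_left _ (by omega)]

theorem d2 {b g : ℕ} : ∀ k, (∀ m < k, dg r b m = dg r g m) → b % r ^ k = g % r ^ k
  | 0, _ => by simp [Nat.mod_one]
  | k + 1, h => by
    rw [Nat.mod_pow_succ, Nat.mod_pow_succ, d2 k fun m hm => h m (by omega)]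
    exact congrArg (fun z => g % r ^ k + r ^ k * z) (h k (by omega))

theorem se {D b y : ℕ} (h : y < D) : st r D (D * b + y) = (y, fun k => dg r b k ≠ 0 ∧ dg r y k = dg r b k) := by
  rw [st, Nat.mul_add_mod, Nat.mod_eq_of_lt h, Nat.mul_add_div (by omega), Nat.div_eq_of_lt h, add_zero]

theorem key {L b t k v : ℕ} (hk : k < L) (hb : b < r ^ L) (ht : t < r ^ L) (h0 : dg r b k = 0) (h2 : 2 ≤ v)
    (hv : v < dg r t k) : Nxt (3 * r ^ L * (2 * r ^ L)) (st r (3 * r ^ L)) (3 * r ^ L * b + t)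
      (3 * r ^ L * b + (nx r t k v - 1)) (3 * r ^ L * (b + r ^ k * v) + t) := by
  have hr : 0 < r := Nat.pos_of_ne_zero fun e => by subst e; rw [zero_pow (by omega)] at hb; omega
  have vr : v < r := hv.trans (Nat.mod_lt _ hr)
  have p : ∀ k, 0 < r ^ k := fun k => pow_pos hr _
  have mo : ∀ {a b}, a ≤ b → r ^ a ≤ r ^ b := Nat.pow_le_pow_right hr
  have a := n2 (t := t) (k := k) vr
  have kL := mo (show k + 1 ≤ L from hk)
  have c := Nat.mul_lt_mul_of_pos_left vr (p k)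
  have c2 := Nat.mul_le_mul_left (r ^ k) h2
  rw [← pow_succ] at c
  obtain ⟨D, hD⟩ : ∃ D, D = 3 * r ^ L := ⟨_, rfl⟩
  obtain ⟨d, hd⟩ : ∃ d, nx r t k v = t + d + 1 := ⟨nx r t k v - t - 1, by omega⟩
  have D0 : 0 < D := by omega
  rw [← hD, Nxt, Occ, hd, show D * b + (t + d + 1 - 1) - (D * b + t) = d by omega]
  refine ⟨by nlinarith [Nat.mul_pos D0 (show 0 < r ^ k * v by have := p k; omega)], ⟨?_, fun m hm => ?_⟩,
    fun x x1 x2 ⟨_, o⟩ => ?_, Or.inr fun e => ?_⟩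
  · have := Nat.mul_le_mul_left D (show b + r ^ k * v + 1 ≤ 2 * r ^ L by omega)
    rw [mul_add_one] at this; omega
  · rw [add_assoc, add_assoc, se (by omega), se (by omega)]
    congr 1; funext j
    rw [d1 vr h0]; split_ifs with e
    · simp [e, h0, n3 hv (Nat.le_add_right t m) (by omega)]
    · rfl
  · rw [show D * b + (t + d + 1 - 1) - (D * b + t) = d by omega] at o
    have e := congrArg Prod.fst (o 0 (by omega))
    rw [add_zero, add_zero, se (by omega), st] at e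
    obtain ⟨g, rfl⟩ : ∃ g, x = D * g + t := ⟨x / D, by rw [← show x % D = t from e, Nat.div_add_mod]⟩
    have g1 : b < g := Nat.lt_of_mul_lt_mul_left (a := D) (by omega)
    have g2 : g < b + r ^ k * v := Nat.lt_of_mul_lt_mul_left (a := D) (by omega)
    have o' : ∀ j w, w < r → nx r t j w ≤ t + d → (dg r g j ≠ 0 ∧ w = dg r g j ↔ dg r b j ≠ 0 ∧ w = dg r b j) :=
      fun j w hw h => by
      have := (n2 (t := t) (k := j) hw).1
      have u := o (nx r t j w - t) (by omega)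
      rw [add_assoc, add_assoc, se (by omega), se (by omega), show t + (nx r t j w - t) = nx r t j w by omega] at u
      simpa only [n1 hw, eq_iff_iff] using congrFun (congrArg Prod.snd u) j
    obtain ⟨w, hw⟩ := (Nat.modEq_iff_dvd' g1.le).mp (d2 k fun j hj => by
      have := mo (show j + 1 ≤ k from hj)
      have u1 : dg r g j < r := Nat.mod_lt _ hr
      have u2 : dg r b j < r := Nat.mod_lt _ hr
      have v1 := o' j _ u1 (by have := (n2 (t := t) (k := j) u1).2; omega)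
      have v2 := o' j _ u2 (by have := (n2 (t := t) (k := j) u2).2; omega)
      by_cases z : dg r g j = 0
      · by_contra c
        exact (v2.mpr ⟨fun e => c (e.trans z.symm), rfl⟩).1 z
      · exact (v1.mp ⟨z, rfl⟩).2.symm)
    obtain rfl : g = b + r ^ k * w := by omega
    have w1 : w < v := Nat.lt_of_mul_lt_mul_left (a := r ^ k) (by omega)
    have := o' k w (by omega) (by
      have : nx r t k w < nx r t k v := Nat.mul_lt_mul_of_pos_left (by omega) (p k)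
      omega)
    rw [d1 (by omega) h0, if_pos rfl, h0] at this
    have : w = 0 := by simpa using this
    simp [this] at g1
  · rw [show D * b + (t + d + 1 - 1) + 1 = D * b + (t + d + 1) by omega, show D * (b + r ^ k * v) + t + d + 1 =
      D * (b + r ^ k * v) + (t + d + 1) by omega, se (by omega), se (by omega), ← hd] at e
    have := congrFun (congrArg Prod.snd e) k
    simp only [d1 vr h0, n1 vr, h0, if_true] at this
    simp at this; omega

theorem uq {α : Type} {n : ℕ} {s : ℕ → α} {i j q q' : ℕ} (h : Nxt n s i j q) (h' : Nxt n s i j q') : q = q' :=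
  le_antisymm (not_lt.mp fun c => h.2.2.1 _ h'.1 c h'.2.1) (not_lt.mp fun c => h'.2.2.1 _ h.1 c h.2.1)

theorem main (K h : ℕ) (hr : r = 2 * h) (h0 : 0 < h) : ∃ P : Finset ℕ, P ⊆ Icc 1 (3 * r ^ (K + 1) * (2 * r ^ (K + 1))) ∧
    #P ≤ (K + 1) * (r ^ K * r ^ (K + 1)) ∧ (K + 1) * (r ^ K * (h * r ^ K * (h - 2))) ≤
      (RCR (3 * r ^ (K + 1) * (2 * r ^ (K + 1))) (st r (3 * r ^ (K + 1))) P).ncard := by
  have r0 : 0 < r := by omega
  have p : ∀ k, 0 < r ^ k := fun k => pow_pos r0 _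
  let B := fun k => {x ∈ range (r ^ (K + 1)) | dg r x k ∈ ({0} : Finset ℕ)}
  let T := fun k => {x ∈ range (r ^ (K + 1)) | dg r x k ∈ Ico h r}
  have cB : ∀ k ∈ range (K + 1), #(B k) = r ^ K := fun k hk => by
    rw [cnt' r0 (Nat.lt_succ_iff.mp (mem_range.mp hk)) {0} (by simpa), card_singleton, one_mul]
  have cT : ∀ k ∈ range (K + 1), #(T k) = h * r ^ K := fun k hk => by
    rw [cnt' r0 (Nat.lt_succ_iff.mp (mem_range.mp hk)) _ fun u hu => (mem_Ico.mp hu).2, Nat.card_Ico]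
    congr 1; omega
  obtain ⟨R, hR⟩ : ∃ R, R = r ^ (K + 1) := ⟨_, rfl⟩
  let P := (range (K + 1)).biUnion fun k => (B k ×ˢ Ioo 0 R).image fun y => 3 * R * y.1 + y.2
  have hP : P ⊆ Icc 1 (3 * R * (2 * R)) := fun x hx => by
    simp only [P, B, mem_biUnion, mem_image, mem_product, mem_filter, mem_range, mem_Ioo, ← hR] at hx
    obtain ⟨k, -, y, ⟨⟨a, -⟩, b⟩, rfl⟩ := hx
    rw [mem_Icc]; constructor <;> nlinarith [b.1, b.2]
  refine ⟨P, hR ▸ hP, card_biUnion_le.trans ((sum_le_card_nsmul _ _ (r ^ K * R) fun k hk =>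
    card_image_le.trans ?_).trans (by simp [hR])), ?_⟩
  · rw [card_product, cB k hk, Nat.card_Ioo]; gcongr; omega
  have cs : #((range (K + 1)).sigma fun k => B k ×ˢ T k ×ˢ Ico 2 h) = (K + 1) * (r ^ K * (h * r ^ K * (h - 2))) := by
    rw [card_sigma, sum_congr rfl fun k hk => by rw [card_product, card_product, cB k hk, cT k hk, Nat.card_Ico]]
    simp
  rw [← cs, ← Set.ncard_coe_finset]
  have H : ∀ y ∈ (range (K + 1)).sigma fun k => B k ×ˢ T k ×ˢ Ico 2 h, y.2.2.1 < R ∧ 2 ≤ y.2.2.2 ∧ y.2.2.2 < r ∧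
      3 * R * y.2.1 + y.2.2.1 ∈ P ∧ y.2.2.1 < nx r y.2.2.1 y.1 y.2.2.2 ∧
      Nxt (3 * R * (2 * R)) (st r (3 * R)) (3 * R * y.2.1 + y.2.2.1)
      (3 * R * y.2.1 + (nx r y.2.2.1 y.1 y.2.2.2 - 1)) (3 * R * (y.2.1 + r ^ y.1 * y.2.2.2) + y.2.2.1) := by
    rintro ⟨k, b, t, v⟩ hy
    simp only [mem_sigma, mem_product] at hy
    obtain ⟨a1, a2, a3, a4⟩ := hy
    have a2' := a2
    simp only [B, T, mem_filter, mem_range, mem_Ico, mem_singleton] at a1 a2 a3 a4
    have := n2 (r := r) (t := t) (k := k) (v := v) (by omega)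
    refine ⟨hR ▸ a3.1, a4.1, by simp only; omega, mem_biUnion.mpr ⟨k, mem_range.mpr a1, mem_image.mpr
      ⟨(b, t), mem_product.mpr ⟨a2', mem_Ioo.mpr ⟨Nat.pos_of_ne_zero fun e => ?_, hR ▸ a3.1⟩⟩, rfl⟩⟩,
      by simp only; omega, hR ▸ key a1 a2.1 a3.1 a2.2 a4.1 (a4.2.trans_le a3.2.1)⟩
    simp only at e
    simp [e, dg] at a3; omega
  rw [← hR]
  refine Set.ncard_le_ncard_of_injOn (fun y => (3 * R * y.2.1 + y.2.2.1,
    3 * R * y.2.1 + (nx r y.2.2.1 y.1 y.2.2.2 - 1))) (fun y hy => ?_) (fun y hy z hz e => ?_)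
    (((Icc 0 (3 * R * (2 * R)) ×ˢ Icc 0 (3 * R * (2 * R))).finite_toSet).subset fun x hx => ?_)
  · obtain ⟨-, -, -, a, b, c⟩ := H y hy
    have := c.1; have := c.2.1.1
    exact ⟨a, (mem_Icc.mp (hP a)).1, by simp only; omega, by simp only; omega, _, c⟩
  · obtain ⟨a1, a2, a3, -, -, a4⟩ := H y hy
    obtain ⟨b1, b2, b3, -, -, b4⟩ := H z hz
    obtain ⟨k, b, t, v⟩ := y
    obtain ⟨k', b', t', v'⟩ := z
    simp only [Prod.mk.injEq] at e a1 a2 a3 a4 b1 b2 b3 b4
    rw [e.1, e.2] at a4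
    have u := uq a4 b4
    have e1 := congrArg (· % (3 * R)) e.1
    simp only [Nat.mul_add_mod, Nat.mod_eq_of_lt (show t < 3 * R by omega),
      Nat.mod_eq_of_lt (show t' < 3 * R by omega)] at e1
    subst e1
    obtain rfl : b = b' := Nat.eq_of_mul_eq_mul_left (show 0 < 3 * R by omega) (by omega)
    have u' : r ^ k * v = r ^ k' * v' := Nat.add_left_cancel
      (Nat.eq_of_mul_eq_mul_left (show 0 < 3 * R by omega) (Nat.add_right_cancel u))
    have w : ∀ k k' v v', r ^ k * v = r ^ k' * v' → v < r → 2 ≤ v' → ¬k < k' := fun k k' v v' e a b c => by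
      have := Nat.pow_le_pow_right r0 (show k + 1 ≤ k' from c)
      have := Nat.mul_lt_mul_of_pos_left a (p k)
      have := Nat.mul_le_mul_left (r ^ k') b
      rw [pow_succ] at *; omega
    obtain rfl : k = k' := le_antisymm (not_lt.mp (w _ _ _ _ u'.symm b3 a2)) (not_lt.mp (w _ _ _ _ u' a3 b2))
    rw [Nat.eq_of_mul_eq_mul_left (p k) u']
  · obtain ⟨-, -, a, b, -⟩ := hx
    simp only [coe_product, Set.mem_prod, mem_coe, mem_Icc]; omega

theorem result : ¬∃ C : ℝ, ∀ (α : Type) (n : ℕ) (s : ℕ → α) (P : Finset ℕ), 1 ≤ n → P ⊆ Icc 1 n →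
    ((RCR n s P).ncard : ℝ) ≤ C * (n + #P * Real.logb 2 n) := by
  rintro ⟨C, H⟩
  obtain ⟨K, hK⟩ := exists_nat_gt (216 * |C|)
  obtain ⟨r, hr⟩ : ∃ r, r = 2 ^ (3 * (K + 1)) := ⟨_, rfl⟩
  obtain ⟨g, hg⟩ : ∃ g, r = 2 * (g + 4) := by
    have := Nat.one_le_two_pow (n := 3 * K)
    exact ⟨4 * 2 ^ (3 * K) - 4, by rw [hr, mul_add, pow_add]; omega⟩
  obtain ⟨P, h1, h2, h3⟩ := main K (g + 4) hg (by omega)
  have p : 0 < r ^ (K + 1) := pow_pos (by omega) _
  have H := H _ _ (st r (3 * r ^ (K + 1))) P (by nlinarith) h1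
  have l : Real.logb 2 (3 * r ^ (K + 1) * (2 * r ^ (K + 1)) : ℕ) ≤ (9 * (K + 1) ^ 2 : ℕ) := by
    rw [Real.logb_le_iff_le_rpow one_lt_two (by positivity), Real.rpow_natCast]
    norm_cast
    calc _ ≤ 2 ^ 3 * (r ^ (K + 1)) ^ 2 := by nlinarith
      _ = 2 ^ (3 + 6 * (K + 1) ^ 2) := by rw [hr, ← pow_mul, ← pow_mul, ← pow_add]; congr 1; ring
      _ ≤ _ := Nat.pow_le_pow_right two_pos (by nlinarith)
  have l0 : 0 ≤ Real.logb 2 (3 * r ^ (K + 1) * (2 * r ^ (K + 1)) : ℕ) :=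
    Real.logb_nonneg one_lt_two (by norm_cast; nlinarith)
  have k3 : (K + 1) ^ 3 ≤ r := by
    rw [hr, mul_comm, pow_mul]; exact Nat.pow_le_pow_left (Nat.lt_two_pow_self).le _
  have m : #P * (9 * (K + 1) ^ 2) ≤ 2 * (3 * r ^ (K + 1) * (2 * r ^ (K + 1))) :=
    calc _ ≤ (K + 1) * (r ^ K * r ^ (K + 1)) * (9 * (K + 1) ^ 2) := by gcongr
      _ = 9 * (r ^ K * r ^ (K + 1)) * (K + 1) ^ 3 := by ring
      _ ≤ 12 * (r ^ K * r ^ (K + 1)) * r := by gcongr; norm_num
      _ = _ := by ring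
  have c : (K + 1) * (3 * r ^ (K + 1) * (2 * r ^ (K + 1))) ≤ 72 * ((K + 1) * (r ^ K * ((g + 4) * r ^ K * (g + 4 - 2)))) := by
    rw [show g + 4 - 2 = g + 2 by omega, pow_succ]
    generalize r ^ K = e
    subst hg
    calc _ = (K + 1) * (e * e) * (g + 4) * (24 * (g + 4)) := by ring
      _ ≤ (K + 1) * (e * e) * (g + 4) * (72 * (g + 2)) := by gcongr ?_ * ?_ <;> omega
      _ = _ := by ring
  have n0 : 0 < 3 * r ^ (K + 1) * (2 * r ^ (K + 1)) := by positivity
  generalize 3 * r ^ (K + 1) * (2 * r ^ (K + 1)) = n at *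
  have c' : ((K + 1) * n : ℝ) ≤ 72 * (RCR n (st r (3 * r ^ (K + 1))) P).ncard := by
    exact_mod_cast c.trans (Nat.mul_le_mul_left _ h3)
  have m' : (#P * Real.logb 2 n : ℝ) ≤ 2 * n :=
    (mul_le_mul_of_nonneg_left l (Nat.cast_nonneg _)).trans (by exact_mod_cast m)
  have n1 : (0 : ℝ) < n := by exact_mod_cast n0
  have := H.trans ((mul_le_mul_of_nonneg_right (le_abs_self C) (by positivity)).trans
    (mul_le_mul_of_nonneg_left (add_le_add_right m' n) (abs_nonneg C)))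
  nlinarith

end Pool.Agent.Results.MP_b69f9e_co.Levels
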